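import Pool.Agent.N963.KL.Stm

set_option autoImplicit false

/-!
# Project KL: the behaviour of `A` near the real axis (helper407, task AB)
-/

namespace Pool.Agent.N407.KL

open Complex Filter Topology MeasureTheory
open Pool.Agent.N963.KL

/-- Bounds for `T = S * gg`. -/
theorem T_bd (hGG : S_GG) (S : ℂ → ℂ) (κ : ℝ) (hS : SS S κ) : ∃ M : ℝ, 0 ≤ M ∧
    (∀ w : ℂ, |w.im| ≤ 1 → ‖S w * gg w‖ ≤ M * Real.exp (M * w.re ^ 2)) ∧
    (∀ w : ℂ, |w.im| ≤ 1 → w.re ≤ 0 → ‖S w * gg w‖ ≤ M * Real.exp (4 * w.re)) := by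
  obtain ⟨-, -, ⟨Cg, hCg1, hCg, -⟩, hdec⟩ := hGG
  obtain ⟨M, hM0, hM⟩ := hS.bd
  obtain ⟨Cd, hCd1, hCd⟩ := hdec (M + 1)
  have hE : ∀ w : ℂ, |w.im| ≤ 1 → ‖S w‖ ≤ M * Real.exp M * Real.exp (M * w.re ^ 2) := by
    intro w hw
    have h1 : ‖w‖ ^ 2 ≤ w.re ^ 2 + 1 := by
      rw [← Complex.normSq_eq_norm_sq, Complex.normSq_apply]
      have := abs_le.1 hw
      nlinarith
    have h2 : M * ‖w‖ ^ 2 ≤ M + M * w.re ^ 2 := by nlinarith [mul_le_mul_of_nonneg_left h1 hM0]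
    calc ‖S w‖ ≤ M * Real.exp (M * ‖w‖ ^ 2) := hM w
      _ ≤ M * Real.exp (M + M * w.re ^ 2) := by gcongr
      _ = M * Real.exp M * Real.exp (M * w.re ^ 2) := by rw [Real.exp_add]; ring
  have hA : 0 ≤ M * Real.exp M * Cg := by positivity
  have hB : 0 ≤ M * Real.exp M * Cd * Real.exp 4 := by positivity
  refine ⟨M + M * Real.exp M * Cg + M * Real.exp M * Cd * Real.exp 4, by positivity, ?_, ?_⟩
  · intro w hw
    rw [norm_mul]
    calc ‖S w‖ * ‖gg w‖ ≤ (M * Real.exp M * Real.exp (M * w.re ^ 2)) * Cg :=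
          mul_le_mul (hE w hw) (hCg w hw).1 (norm_nonneg _) (by positivity)
      _ = (M * Real.exp M * Cg) * Real.exp (M * w.re ^ 2) := by ring
      _ ≤ (M + M * Real.exp M * Cg + M * Real.exp M * Cd * Real.exp 4) *
          Real.exp ((M + M * Real.exp M * Cg + M * Real.exp M * Cd * Real.exp 4) * w.re ^ 2) := by
          apply mul_le_mul _ _ (Real.exp_pos _).le (by positivity)
          · linarith
          · apply Real.exp_le_exp.2
            apply mul_le_mul_of_nonneg_right _ (sq_nonneg _)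
            linarith
  · intro w hw hre
    rw [norm_mul]
    calc ‖S w‖ * ‖gg w‖ ≤ (M * Real.exp M * Real.exp (M * w.re ^ 2)) *
          (Cd * Real.exp (-((M + 1) * w.re ^ 2))) :=
          mul_le_mul (hE w hw) (hCd w hw hre).1 (norm_nonneg _) (by positivity)
      _ = (M * Real.exp M * Cd) * (Real.exp (M * w.re ^ 2) * Real.exp (-((M + 1) * w.re ^ 2))) := by ring
      _ = (M * Real.exp M * Cd) * Real.exp (-(w.re ^ 2)) := by
          rw [← Real.exp_add]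
          congr 2
          ring
      _ ≤ (M * Real.exp M * Cd) * Real.exp (4 + 4 * w.re) := by
          apply mul_le_mul_of_nonneg_left _ (by positivity)
          apply Real.exp_le_exp.2
          nlinarith [sq_nonneg (w.re + 2)]
      _ = (M * Real.exp M * Cd * Real.exp 4) * Real.exp (4 * w.re) := by rw [Real.exp_add]; ring
      _ ≤ _ := by
          apply mul_le_mul_of_nonneg_right _ (Real.exp_pos _).le
          linarith

theorem T_diff (hGG : S_GG) (S : ℂ → ℂ) (κ : ℝ) (hS : SS S κ) (w : ℂ) (hw : |w.im| < Real.pi / 2) :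
    DifferentiableAt ℂ (fun w => S w * gg w) w :=
  (hS.diff w).mul (hGG.1 w hw)

theorem bet_le (κ' L : ℝ) (n : ℕ) (hn : 1 ≤ n) (hκ : κ' < 1) : bet κ' L n ≤ (n : ℝ) ^ (-κ') := by
  unfold bet
  split_ifs with h
  · exact le_refl _
  · push Not at h
    have hn0 : (0 : ℝ) < n := by exact_mod_cast hn
    calc (n : ℝ) ^ (-3 : ℝ) * Real.exp ((3 - κ') * L)
        ≤ (n : ℝ) ^ (-3 : ℝ) * Real.exp ((3 - κ') * Real.log n) := by
          apply mul_le_mul_of_nonneg_left _ (Real.rpow_nonneg hn0.le _)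
          apply Real.exp_le_exp.2
          apply mul_le_mul_of_nonneg_left h.le
          linarith
      _ = (n : ℝ) ^ (-κ') := by
          rw [Real.rpow_def_of_pos hn0, Real.rpow_def_of_pos hn0, ← Real.exp_add]
          congr 1
          ring

theorem bet_nonneg (κ' L : ℝ) (n : ℕ) : 0 ≤ bet κ' L n := by
  unfold bet
  split_ifs <;> positivity

theorem norm_cp (n : ℕ) (z : ℂ) : ‖((n : ℂ) + 1) ^ (-(1 / 2) - I * z)‖ = ((n : ℝ) + 1) ^ (-(1 / 2) + z.im) := by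
  have h : ((n : ℂ) + 1) = (((n : ℝ) + 1 : ℝ) : ℂ) := by push_cast; rfl
  rw [h, Complex.norm_cpow_eq_rpow_re_of_pos (by positivity)]
  congr 1
  simp

/-- The largeness conditions. -/
theorem large (A B D δ : ℝ) (hδ : 0 < δ) : ∃ x0 : ℝ, 1 ≤ x0 ∧ ∀ x : ℝ, x0 ≤ x → A ≤ x ∧
    B ≤ Real.log (x / (2 * Real.pi)) / 2 ∧ 0 < Real.log x ∧
    D * (Real.log (x / (2 * Real.pi)) / 2) ≤ Real.log x ^ 2 ∧
    Real.log (x / (2 * Real.pi)) / 2 ≤ Real.log x / 2 ∧
    |Real.log (x / (2 * Real.pi)) / 2| * x ^ (-(1 / 6) : ℝ) ≤ δ := by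
  have hpi : (1 : ℝ) ≤ 2 * Real.pi := by linarith [Real.pi_gt_three]
  have e1 : ∀ᶠ x : ℝ in atTop, A ≤ x := eventually_ge_atTop A
  have e0 : ∀ᶠ x : ℝ in atTop, 1 ≤ x := eventually_ge_atTop 1
  have t2 : Tendsto (fun x : ℝ => Real.log (x / (2 * Real.pi)) / 2) atTop atTop := by
    apply Tendsto.atTop_div_const (by norm_num)
    exact Real.tendsto_log_atTop.comp (tendsto_id.atTop_div_const (by positivity))
  have e2 := t2.eventually_ge_atTop B
  have e2' := t2.eventually_ge_atTop 0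
  have e3 := Real.tendsto_log_atTop.eventually_gt_atTop 0
  have e4 := Real.tendsto_log_atTop.eventually_ge_atTop D
  have t5 : Tendsto (fun x : ℝ => 6 * x ^ (-(1 / 12) : ℝ)) atTop (𝓝 0) := by
    have := (tendsto_rpow_neg_atTop (show (0 : ℝ) < 1 / 12 by norm_num)).const_mul 6
    simpa using this
  have e5 : ∀ᶠ x : ℝ in atTop, 6 * x ^ (-(1 / 12) : ℝ) < δ := t5.eventually_lt_const hδ
  obtain ⟨x0, hx0⟩ := eventually_atTop.1 (e0.and (e1.and (e2.and (e2'.and (e3.and (e4.and e5))))))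
  refine ⟨max x0 1, le_max_right _ _, ?_⟩
  intro x hx
  obtain ⟨h0, h1, h2, h2', h3, h4, h5⟩ := hx0 x (le_trans (le_max_left _ _) hx)
  have hxp : (0 : ℝ) < x := by linarith
  have hL : Real.log (x / (2 * Real.pi)) / 2 ≤ Real.log x / 2 := by
    have : Real.log (x / (2 * Real.pi)) ≤ Real.log x := by
      apply Real.log_le_log (by positivity)
      exact div_le_self hxp.le hpi
    linarith
  refine ⟨h1, h2, h3, ?_, hL, ?_⟩
  · calc D * (Real.log (x / (2 * Real.pi)) / 2) ≤ Real.log x * (Real.log (x / (2 * Real.pi)) / 2) :=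
          mul_le_mul_of_nonneg_right h4 h2'
      _ ≤ Real.log x * (Real.log x / 2) := mul_le_mul_of_nonneg_left hL h3.le
      _ ≤ Real.log x ^ 2 := by nlinarith
  · rw [abs_of_nonneg h2']
    have hl : Real.log x ≤ x ^ (1 / 12 : ℝ) / (1 / 12) := Real.log_le_rpow_div hxp.le (by norm_num)
    calc Real.log (x / (2 * Real.pi)) / 2 * x ^ (-(1 / 6) : ℝ)
        ≤ (6 * x ^ (1 / 12 : ℝ)) * x ^ (-(1 / 6) : ℝ) := by
          apply mul_le_mul_of_nonneg_right _ (Real.rpow_nonneg hxp.le _)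
          linarith
      _ = 6 * x ^ (-(1 / 12) : ℝ) := by
          rw [mul_assoc, ← Real.rpow_add hxp]
          norm_num
      _ ≤ δ := h5.le

/-- The hypotheses of the average, for the `n`-th term. -/
theorem ga_term (hGG : S_GG) (S : ℂ → ℂ) (κ κ' C x : ℝ) (hS : SS S κ) (n : ℕ) (hn : 1 ≤ n)
    (hx : 0 < x)
    (hTB : ∀ w : ℂ, |w.im - Real.pi / 4| ≤ Real.exp (-(2 / 3 * (Real.log (x / (2 * Real.pi)) / 2))) →
      ‖deriv (fun w => S w * gg w) w‖ ≤ C * (Real.log (x / (2 * Real.pi)) / 2) * ‖S (w0 x)‖ *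
        bet κ' (Real.log (x / (2 * Real.pi)) / 2) n *
        Real.exp (C * (Real.log (x / (2 * Real.pi)) / 2) *
          (rp (Real.log (x / (2 * Real.pi)) / 2 - Real.log n) w +
            rp (Real.log (x / (2 * Real.pi)) / 2 - Real.log n) w ^ 2))) :
    ∃ M : ℝ, (∀ w : ℂ, |w.im| < Real.pi / 2 →
        DifferentiableAt ℂ (fun w : ℂ => S (w - Real.log n) * gg (w - Real.log n)) w) ∧
      (∀ w : ℂ, 0 ≤ w.im → w.im ≤ 1 → ‖S (w - Real.log n) * gg (w - Real.log n)‖ ≤ M * Real.exp (M * w.re ^ 2)) ∧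
      (∀ w : ℂ, 0 ≤ w.im → w.im ≤ 1 → w.re ≤ 0 → ‖S (w - Real.log n) * gg (w - Real.log n)‖ ≤ M) ∧
      (∀ w : ℂ, |w.im - Real.pi / 4| ≤ x ^ (-(1 / 3) : ℝ) →
        ‖deriv (fun w : ℂ => S (w - Real.log n) * gg (w - Real.log n)) w‖ ≤
          (C * (Real.log (x / (2 * Real.pi)) / 2) * ‖S (w0 x)‖ * bet κ' (Real.log (x / (2 * Real.pi)) / 2) n) *
          Real.exp ((C * (Real.log (x / (2 * Real.pi)) / 2)) * (rp (w0 x).re w + rp (w0 x).re w ^ 2))) := by
  obtain ⟨M, hM0, hM1, hM2⟩ := T_bd hGG S κ hS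
  have hl0 : 0 ≤ Real.log n := Real.log_natCast_nonneg n
  set l : ℝ := Real.log n with hl
  refine ⟨2 * M * Real.exp (2 * M * l ^ 2), ?_, ?_, ?_, ?_⟩
  · intro w hw
    have h1 := T_diff hGG S κ hS (w - l) (by simpa using hw)
    exact h1.comp w ((differentiableAt_id).sub_const _)
  · intro w hw0 hw1
    have h1 := hM1 (w - l) (by simpa [abs_of_nonneg hw0] using hw1)
    have h2 : (w - (l : ℂ)).re = w.re - l := by simp
    rw [h2] at h1
    refine h1.trans ?_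
    have he : 1 ≤ Real.exp (2 * M * l ^ 2) := Real.one_le_exp (by positivity)
    calc M * Real.exp (M * (w.re - l) ^ 2) ≤ M * Real.exp (2 * M * l ^ 2 + 2 * M * w.re ^ 2) := by
          apply mul_le_mul_of_nonneg_left _ hM0
          apply Real.exp_le_exp.2
          nlinarith [mul_nonneg hM0 (sq_nonneg (w.re + l))]
      _ = M * Real.exp (2 * M * l ^ 2) * Real.exp (2 * M * w.re ^ 2) := by rw [Real.exp_add]; ring
      _ ≤ (2 * M * Real.exp (2 * M * l ^ 2)) * Real.exp (2 * M * Real.exp (2 * M * l ^ 2) * w.re ^ 2) := by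
          apply mul_le_mul _ _ (Real.exp_pos _).le (by positivity)
          · nlinarith [mul_nonneg hM0 (Real.exp_pos (2 * M * l ^ 2)).le]
          · apply Real.exp_le_exp.2
            apply mul_le_mul_of_nonneg_right _ (sq_nonneg _)
            nlinarith
  · intro w hw0 hw1 hre
    have h1 := hM2 (w - l) (by simpa [abs_of_nonneg hw0] using hw1) (by simp; linarith)
    refine h1.trans ?_
    have h2 : (w - (l : ℂ)).re = w.re - l := by simp
    rw [h2]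
    have he : 1 ≤ Real.exp (2 * M * l ^ 2) := Real.one_le_exp (by positivity)
    have he2 : Real.exp (4 * (w.re - l)) ≤ 1 := Real.exp_le_one_iff.2 (by linarith)
    nlinarith [mul_le_mul_of_nonneg_left he2 hM0, mul_le_mul_of_nonneg_left he hM0]
  · intro w hw
    have h1 : deriv (fun w : ℂ => S (w - l) * gg (w - l)) w = deriv (fun w : ℂ => S w * gg w) (w - l) :=
      deriv_comp_sub_const (f := fun w : ℂ => S w * gg w) (x := w) (a := (l : ℂ))
    rw [h1]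
    have h3 : x ^ (-(1 / 3) : ℝ) ≤ Real.exp (-(2 / 3 * (Real.log (x / (2 * Real.pi)) / 2))) := by
      rw [Real.rpow_def_of_pos hx]
      apply Real.exp_le_exp.2
      rw [Real.log_div hx.ne' (by positivity)]
      have : 0 ≤ Real.log (2 * Real.pi) := Real.log_nonneg (by linarith [Real.pi_gt_three])
      linarith
    have h4 := hTB (w - l) (by simpa using hw.trans h3)
    have h5 : rp (Real.log (x / (2 * Real.pi)) / 2 - l) (w - l) = rp (w0 x).re w := by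
      unfold rp w0
      simp
    rw [h5] at h4
    exact h4

theorem ab : S_AB := by
  intro hLPB hGG hTB hTAU hLOW hDS hSUM hSTI hGA S κ hS hκ
  obtain ⟨κ', h1, h2, h3⟩ : ∃ κ' : ℝ, 1 / 2 < κ' ∧ κ' < κ ∧ κ' < 1 := by
    obtain ⟨k, hk1, hk2⟩ := exists_between (lt_min hκ (show (1 / 2 : ℝ) < 1 by norm_num))
    exact ⟨k, hk1, lt_of_lt_of_le hk2 (min_le_left _ _), lt_of_lt_of_le hk2 (min_le_right _ _)⟩
  obtain ⟨C, L2, hC, hL2, hTB⟩ := hTB hLPB hGG S κ κ' hS h1 h2 h3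
  obtain ⟨C3, hC3, hDS⟩ := hDS κ' h1 h3
  obtain ⟨c, η, N, hc, hη, hLOW⟩ := hLOW κ' C h1
  obtain ⟨L3, hL3, hTAU⟩ := hTAU hLPB hGG S κ κ' hS h1 h2 h3 η N hη
  obtain ⟨C4, c4, x4, hC4, hc4, hx4, hSTI⟩ := hSTI
  obtain ⟨C5, x5, hC5, hx5, hGA⟩ := hGA
  obtain ⟨Md, hMd0, hMd1, hMd2⟩ := T_bd hGG S κ hS
  set K : ℝ := C5 * C * C3 with hK
  have hK0 : 0 < K := by positivity
  obtain ⟨x0, hx0, hlarge⟩ := large (max x4 x5) (max L2 (max L3 1)) C (min 1 (c / 2) / K)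
    (by positivity)
  refine ⟨(κ' - 1 / 2) / 2, (C * C3 + 1) * C4, c / 2 * c4, x0, by linarith, by linarith, ?_, by positivity, hx0, ?_⟩
  · have : 1 ≤ C * C3 + 1 := by
      have : 0 ≤ C * C3 := by positivity
      linarith
    nlinarith
  intro x hx
  obtain ⟨g1, g2, g3, g4, g5, g6⟩ := hlarge x hx
  have hxp : (0 : ℝ) < x := by linarith
  set L : ℝ := Real.log (x / (2 * Real.pi)) / 2 with hL
  have hLL2 : L2 ≤ L := (le_max_left _ _).trans g2
  have hLL3 : L3 ≤ L := ((le_max_left _ _).trans (le_max_right _ _)).trans g2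
  have hL1 : 1 ≤ L := ((le_max_right _ _).trans (le_max_right _ _)).trans g2
  have hW : w0 x = (L : ℂ) + (Real.pi / 4 : ℝ) * I := rfl
  have hWre : (w0 x).re = L := by rw [hW]; simp
  have hSW : S (w0 x) ≠ 0 := hS.ne _ (by rw [hWre]; linarith)
  have hSW0 : 0 < ‖S (w0 x)‖ := norm_pos_iff.2 hSW
  obtain ⟨β, hβ, hST⟩ := hSTI x ((le_max_left _ _).trans g1)
  have hMx : 0 < ‖MM x‖ := by
    have := (hST x (by simp)).1
    refine lt_of_lt_of_le ?_ this
    positivity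
  obtain ⟨q, hq, hqn⟩ := hTAU L hLL3 (w0 x) hW
  refine ⟨β, ‖MM x‖ * ‖S (w0 x)‖, by positivity, ?_, ?_⟩
  · refine hβ.trans ?_
    have : 0 ≤ C * C3 := by positivity
    nlinarith
  intro z hz
  have hzim : |z.im| ≤ 1 := by
    have := Complex.abs_im_le_norm (z - x)
    simp at this
    linarith
  obtain ⟨-, hz2, hz3⟩ := hST z hz
  -- the coefficients
  set τ : ℕ → ℂ := fun n => S (w0 x - Real.log n) * gg (w0 x - Real.log n) / S (w0 x) with hτ
  have hτb : ∀ n : ℕ, 1 ≤ n → ‖τ n‖ ≤ C * bet κ' L n := by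
    intro n hn
    have := (hTB L hLL2 n hn (w0 x) hW).1
    rw [hτ]
    simp only
    rw [norm_div, div_le_iff₀ hSW0]
    linarith
  obtain ⟨hsm, hsum⟩ := hDS L z.im hL1 (abs_le.1 hzim).1 (abs_le.1 hzim).2
  set X : ℝ := Real.exp (L * max (z.im - (κ' - 1 / 2) / 2) 0) with hX
  have hX0 : 0 < X := Real.exp_pos _
  -- the Dirichlet series
  have hDn : ∀ n : ℕ, ‖((n : ℂ) + 1) ^ (-(1 / 2) - I * z) * τ (n + 1)‖ ≤
      C * (((n : ℝ) + 1) ^ (-(1 / 2) + z.im) * bet κ' L (n + 1)) := by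
    intro n
    rw [norm_mul, norm_cp]
    have := hτb (n + 1) (by omega)
    calc ((n : ℝ) + 1) ^ (-(1 / 2) + z.im) * ‖τ (n + 1)‖
        ≤ ((n : ℝ) + 1) ^ (-(1 / 2) + z.im) * (C * bet κ' L (n + 1)) :=
          mul_le_mul_of_nonneg_left this (by positivity)
      _ = _ := by ring
  have hDs : Summable fun n : ℕ => ((n : ℂ) + 1) ^ (-(1 / 2) - I * z) * τ (n + 1) :=
    Summable.of_norm_bounded (hsm.mul_left C) hDn
  set D : ℂ := ∑' n : ℕ, ((n : ℂ) + 1) ^ (-(1 / 2) - I * z) * τ (n + 1) with hD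
  have hDle : ‖D‖ ≤ C * C3 * X := by
    calc ‖D‖ ≤ ∑' n : ℕ, C * (((n : ℝ) + 1) ^ (-(1 / 2) + z.im) * bet κ' L (n + 1)) :=
          tsum_of_norm_bounded (hsm.mul_left C).hasSum hDn
      _ = C * ∑' n : ℕ, (((n : ℝ) + 1) ^ (-(1 / 2) + z.im) * bet κ' L (n + 1)) := tsum_mul_left
      _ ≤ C * (C3 * X) := mul_le_mul_of_nonneg_left hsum (by linarith)
      _ = C * C3 * X := by ring
  -- the sum for `AA`
  have hAA := hSUM (fun w => S w * gg w) (by
      rw [continuous_iff_continuousAt]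
      intro t
      have h := (T_diff hGG S κ hS (t : ℂ) (by simp; positivity)).continuousAt
      exact ContinuousAt.comp (f := fun t : ℝ => (t : ℂ)) (g := fun w : ℂ => S w * gg w) h
        Complex.continuous_ofReal.continuousAt)
    ⟨Md, fun t => by
      have := hMd1 (t : ℂ) (by simp)
      simpa using this⟩
    ⟨Md, fun t ht => by
      have := hMd2 (t : ℂ) (by simp) (by simpa using ht)
      simpa using this⟩ z hzim
  -- the errors
  have hEn : ∀ n : ℕ, ‖((n : ℂ) + 1) ^ (-(1 / 2) - I * z) *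
      Jx (fun w => S (w - Real.log ((n : ℝ) + 1)) * gg (w - Real.log ((n : ℝ) + 1))) z -
      MM z * S (w0 x) * (((n : ℂ) + 1) ^ (-(1 / 2) - I * z) * τ (n + 1))‖ ≤
      (C5 * x ^ (-(1 / 6) : ℝ) * ‖MM z‖ * (C * L * ‖S (w0 x)‖)) *
        (((n : ℝ) + 1) ^ (-(1 / 2) + z.im) * bet κ' L (n + 1)) := by
    intro n
    have hn1 : 1 ≤ n + 1 := by omega
    obtain ⟨M, m1, m2, m3, m4⟩ := ga_term hGG S κ κ' C x hS (n + 1) hn1 hxp
      (hTB L hLL2 (n + 1) hn1 (w0 x) hW).2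
    have hb0 := bet_nonneg κ' L (n + 1)
    have hga := hGA (fun w : ℂ => S (w - Real.log ((n + 1 : ℕ) : ℝ)) * gg (w - Real.log ((n + 1 : ℕ) : ℝ)))
      M (C * L) (C * L * ‖S (w0 x)‖ * bet κ' L (n + 1)) x ((le_max_right _ _).trans g1)
      (by positivity) g4 (by positivity) m1 m2 m3 m4 z hz
    have e1 : ((n + 1 : ℕ) : ℝ) = (n : ℝ) + 1 := by push_cast; rfl
    have e2 : MM z * S (w0 x) * (((n : ℂ) + 1) ^ (-(1 / 2) - I * z) * τ (n + 1)) =
        ((n : ℂ) + 1) ^ (-(1 / 2) - I * z) *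
          ((S (w0 x - Real.log ((n : ℝ) + 1)) * gg (w0 x - Real.log ((n : ℝ) + 1))) * MM z) := by
      rw [hτ]
      simp only
      rw [e1]
      field_simp
    rw [e2, ← mul_sub, norm_mul, norm_cp]
    rw [e1] at hga
    calc _ ≤ ((n : ℝ) + 1) ^ (-(1 / 2) + z.im) *
          (C5 * x ^ (-(1 / 6) : ℝ) * ‖MM z‖ * (C * L * ‖S (w0 x)‖ * bet κ' L (n + 1))) :=
          mul_le_mul_of_nonneg_left hga (by positivity)
      _ = _ := by ring
  have hAAE : ‖AA S z - MM z * S (w0 x) * D‖ ≤ ‖MM z‖ * ‖S (w0 x)‖ * (K * (L * x ^ (-(1 / 6) : ℝ)) * X) := by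
    have hs1 := hAA.sub (hDs.hasSum.mul_left (MM z * S (w0 x)))
    have h6 : ‖AA S z - MM z * S (w0 x) * D‖ ≤
        ∑' n : ℕ, (C5 * x ^ (-(1 / 6) : ℝ) * ‖MM z‖ * (C * L * ‖S (w0 x)‖)) *
        (((n : ℝ) + 1) ^ (-(1 / 2) + z.im) * bet κ' L (n + 1)) := by
      have h7 := tsum_of_norm_bounded
        (hsm.mul_left (C5 * x ^ (-(1 / 6) : ℝ) * ‖MM z‖ * (C * L * ‖S (w0 x)‖))).hasSum hEn
      rw [hs1.tsum_eq] at h7
      exact h7
    refine h6.trans ?_
    rw [tsum_mul_left]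
    calc _ ≤ (C5 * x ^ (-(1 / 6) : ℝ) * ‖MM z‖ * (C * L * ‖S (w0 x)‖)) * (C3 * X) :=
          mul_le_mul_of_nonneg_left hsum (by positivity)
      _ = _ := by rw [hK]; ring
  have hL0 : 0 < L := by linarith
  have hsmall : K * (L * x ^ (-(1 / 6) : ℝ)) ≤ min 1 (c / 2) := by
    rw [abs_of_pos hL0] at g6
    rw [le_div_iff₀ hK0] at g6
    linarith
  have hsm1 : K * (L * x ^ (-(1 / 6) : ℝ)) ≤ 1 := hsmall.trans (min_le_left _ _)
  have hsm2 : K * (L * x ^ (-(1 / 6) : ℝ)) ≤ c / 2 := hsmall.trans (min_le_right _ _)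
  have hMz0 : 0 ≤ ‖MM z‖ := norm_nonneg _
  have hMS : 0 ≤ ‖MM z‖ * ‖S (w0 x)‖ := by positivity
  constructor
  · have hXle : X ≤ Real.exp (Real.log x / 2 * max (z.im - (κ' - 1 / 2) / 2) 0) := by
      apply Real.exp_le_exp.2
      exact mul_le_mul_of_nonneg_right g5 (le_max_right _ _)
    have hA1 : ‖AA S z‖ ≤ ‖MM z * S (w0 x) * D‖ + ‖AA S z - MM z * S (w0 x) * D‖ := by
      have := norm_add_le (MM z * S (w0 x) * D) (AA S z - MM z * S (w0 x) * D)
      simpa using this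
    have hA2 : ‖MM z * S (w0 x) * D‖ ≤ ‖MM z‖ * ‖S (w0 x)‖ * (C * C3 * X) := by
      rw [norm_mul, norm_mul]
      exact mul_le_mul_of_nonneg_left hDle hMS
    have hA3 : ‖AA S z‖ ≤ ‖MM z‖ * ‖S (w0 x)‖ * ((C * C3 + 1) * X) := by
      have : K * (L * x ^ (-(1 / 6) : ℝ)) * X ≤ 1 * X := mul_le_mul_of_nonneg_right hsm1 hX0.le
      have h8 := mul_le_mul_of_nonneg_left this hMS
      calc ‖AA S z‖ ≤ _ := hA1
        _ ≤ ‖MM z‖ * ‖S (w0 x)‖ * (C * C3 * X) + ‖MM z‖ * ‖S (w0 x)‖ * (1 * X) :=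
            add_le_add hA2 (hAAE.trans h8)
        _ = _ := by ring
    have hCC : 0 ≤ C * C3 + 1 := by positivity
    calc ‖AA S z‖ ≤ ‖MM z‖ * ‖S (w0 x)‖ * ((C * C3 + 1) * X) := hA3
      _ ≤ (C4 * ‖MM x‖ * Real.exp (-(β * (z - x)).im)) * ‖S (w0 x)‖ *
          ((C * C3 + 1) * Real.exp (Real.log x / 2 * max (z.im - (κ' - 1 / 2) / 2) 0)) := by
          gcongr
      _ = _ := by ring
  · intro hzε
    have hX1 : X = 1 := by
      rw [hX, max_eq_right (by linarith)]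
      simp
    rw [hX1, mul_one] at hAAE
    have hlow := hLOW τ q (fun n hn => (hτb n hn).trans
      (mul_le_mul_of_nonneg_left (bet_le κ' L n hn h3) (by linarith))) hq hqn z hzε
    have hA1 : ‖MM z * S (w0 x) * D‖ ≤ ‖AA S z‖ + ‖AA S z - MM z * S (w0 x) * D‖ := by
      have := norm_sub_le (AA S z) (AA S z - MM z * S (w0 x) * D)
      simpa using this
    rw [norm_mul, norm_mul] at hA1
    have h9 : ‖MM z‖ * ‖S (w0 x)‖ * c ≤ ‖MM z‖ * ‖S (w0 x)‖ * ‖D‖ := mul_le_mul_of_nonneg_left hlow hMS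
    have h10 : ‖MM z‖ * ‖S (w0 x)‖ * (K * (L * x ^ (-(1 / 6) : ℝ))) ≤ ‖MM z‖ * ‖S (w0 x)‖ * (c / 2) :=
      mul_le_mul_of_nonneg_left hsm2 hMS
    have h11 : ‖MM z‖ * ‖S (w0 x)‖ * (c / 2) ≤ ‖AA S z‖ := by nlinarith
    calc c / 2 * c4 * (‖MM x‖ * ‖S (w0 x)‖) * Real.exp (-(β * (z - x)).im)
        = (c4 * ‖MM x‖ * Real.exp (-(β * (z - x)).im)) * ‖S (w0 x)‖ * (c / 2) := by ring
      _ ≤ ‖MM z‖ * ‖S (w0 x)‖ * (c / 2) := by gcongr
      _ ≤ _ := h11

end Pool.Agent.N407.KL
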